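import Pool.Agent.R165.Vil.F

/-!
# MP_c47ae4_an: Riesz logarithmic means of Vilenkin-Fourier series along `M_n`

For every bounded Vilenkin sequence `m` and every `0 < p ≤ 1` the means `R_{M_n}` are uniformly
bounded from `H_p(G_m)` to `L_p(G_m)`. Hence no martingale as in Q1 exists.
-/

namespace Pool.Agent.Results.MP_c47ae4_an.RieszLogMeans

open MeasureTheory Pool.Agent.R165.Vil
open scoped ENNReal NNReal

/-- `‖g‖_p = (∫ |g|^p dμ)^{1/p}`. -/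
noncomputable def Lnorm {m : ℕ → ℕ} [∀ k, NeZero (m k)] (p : ℝ) (g : G m → ℂ) : ℝ≥0∞ :=
  (∫⁻ x, ‖g x‖ₑ ^ p ∂mu m) ^ (1 / p)

/-- `‖f‖_{H_p} = ‖f^*‖_p`, `f^* = sup_n |f^(n)|`. -/
noncomputable def Hnorm {m : ℕ → ℕ} [∀ k, NeZero (m k)] (p : ℝ) (f : ℕ → G m → ℂ) : ℝ≥0∞ :=
  (∫⁻ x, (⨆ n, ‖f n x‖ₑ) ^ p ∂mu m) ^ (1 / p)

theorem result (m : ℕ → ℕ) [∀ k, NeZero (m k)] (h2 : ∀ k, 2 ≤ m k) (hB : ∃ B, ∀ k, m k ≤ B)
    (p : ℝ) (hp0 : 0 < p) (hp1 : p ≤ 1) :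
    (∃ C : ℝ≥0, ∀ f : ℕ → G m → ℂ, Martingale f (Fil m) (mu m) →
      ∀ n, Lnorm p (Rf f (M m n)) ≤ C * Hnorm p f) ∧
    ¬∃ f : ℕ → G m → ℂ, Martingale f (Fil m) (mu m) ∧ Hnorm p f < ⊤ ∧
      (⨆ n, Lnorm p (Rf f (M m n))) = ⊤ := by
  obtain ⟨B, hB⟩ := hB
  have hK := KB_nonneg B hp0
  have key : ∀ f : ℕ → G m → ℂ, Martingale f (Fil m) (mu m) → ∀ n,
      Lnorm p (Rf f (M m n)) ≤
        ((Real.toNNReal ((1 + KB B p * 2 ^ p) ^ (1 / p)) : ℝ≥0) : ℝ≥0∞) * Hnorm p f := by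
    intro f hf n
    have h1 := power_bound h2 hB hp0 hp1 hf n
    unfold Lnorm Hnorm
    refine (ENNReal.rpow_le_rpow h1 (by positivity)).trans (le_of_eq ?_)
    rw [ENNReal.mul_rpow_of_nonneg _ _ (by positivity),
      ENNReal.ofReal_rpow_of_nonneg (by positivity) (by positivity)]
    rfl
  refine ⟨⟨_, key⟩, ?_⟩
  rintro ⟨f, hf, hfin, hsup⟩
  have h1 : (⨆ n, Lnorm p (Rf f (M m n))) ≤
      ((Real.toNNReal ((1 + KB B p * 2 ^ p) ^ (1 / p)) : ℝ≥0) : ℝ≥0∞) * Hnorm p f :=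
    iSup_le fun n => key f hf n
  rw [hsup] at h1
  exact absurd h1 (not_le.mpr (ENNReal.mul_lt_top ENNReal.coe_lt_top hfin))

end Pool.Agent.Results.MP_c47ae4_an.RieszLogMeans
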